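import Pool.Agent.Helper15.T4.Stmts

set_option autoImplicit false

open Finset

namespace Pool.Agent.Helper77.T4

open Pool.Agent.Helper15.T4

section inv

variable {n : ℕ}

open Classical in
/-- The pairing of an involution. -/
noncomputable def Mp (p : HE n → HE n) : Finset (Sym2 (HE n)) :=
  univ.image (fun h => s(h, p h))

theorem mem_Mp (p : HE n → HE n) (hp : ∀ h, p (p h) = h) (x y : HE n) :
    s(x, y) ∈ Mp p ↔ p x = y := by
  classical
  unfold Mp
  rw [mem_image]
  constructor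
  · rintro ⟨h, _, hh⟩
    rw [Sym2.eq_iff] at hh
    rcases hh with ⟨h1, h2⟩ | ⟨h1, h2⟩
    · rw [← h1, h2]
    · rw [← h2, hp, h1]
  · intro h
    exact ⟨x, mem_univ _, by rw [h]⟩

theorem mp_pm (p : HE n → HE n) (hp : ∀ h, p (p h) = h) (hf : ∀ h, p h ≠ h) :
    Mp p ∈ PM (univ : Finset (HE n)) := by
  classical
  unfold PM
  rw [mem_filter]
  refine ⟨mem_univ _, ?_, fun _ _ _ _ => mem_univ _, ?_⟩
  · intro e he
    induction e using Sym2.ind with
    | _ x y =>
      rw [mem_Mp p hp] at he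
      intro hd
      rw [Sym2.mk_isDiag_iff] at hd
      apply hf x
      rw [he, hd]
  · intro h _
    refine ⟨s(h, p h), ⟨(mem_Mp p hp _ _).2 rfl, Sym2.mem_mk_left _ _⟩, ?_⟩
    rintro e ⟨he, hhe⟩
    induction e using Sym2.ind with
    | _ x y =>
      rw [mem_Mp p hp] at he
      rw [Sym2.mem_iff] at hhe
      rcases hhe with rfl | rfl
      · rw [he]
      · rw [← he, hp, Sym2.eq_swap]

end inv

variable {n : ℕ} {G : SimpleGraph (Fin n)}

/-- The partner function of a family of bijections. -/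
def pb (β : (v : Fin n) → Fin 3 ≃ {w // G.Adj v w}) (h : HE n) : HE n :=
  (((β h.1 h.2).1), (β (β h.1 h.2).1).symm ⟨h.1, (β h.1 h.2).2.symm⟩)

theorem pb_eq_iff (β : (v : Fin n) → Fin 3 ≃ {w // G.Adj v w}) (v w : Fin n) (a b : Fin 3) :
    pb β (v, a) = (w, b) ↔ (β v a).1 = w ∧ (β w b).1 = v := by
  constructor
  · intro h
    unfold pb at h
    simp only [Prod.mk.injEq] at h
    obtain ⟨h1, h2⟩ := h
    refine ⟨h1, ?_⟩
    rw [← h2]
    subst h1
    simp
  · rintro ⟨h1, h2⟩
    unfold pb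
    simp only [Prod.mk.injEq]
    refine ⟨h1, ?_⟩
    subst h1
    rw [Equiv.symm_apply_eq]
    exact Subtype.ext h2.symm

theorem pb_inv (β : (v : Fin n) → Fin 3 ≃ {w // G.Adj v w}) (h : HE n) : pb β (pb β h) = h := by
  obtain ⟨v, a⟩ := h
  have h1 := (pb_eq_iff β v (pb β (v, a)).1 a (pb β (v, a)).2).1 rfl
  exact (pb_eq_iff β (pb β (v, a)).1 v (pb β (v, a)).2 a).2 ⟨h1.2, h1.1⟩

theorem pb_ne (β : (v : Fin n) → Fin 3 ≃ {w // G.Adj v w}) (h : HE n) : pb β h ≠ h := by
  obtain ⟨v, a⟩ := h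
  intro hc
  have h1 := ((pb_eq_iff β v v a a).1 hc).1
  have h2 := (β v a).2
  rw [h1] at h2
  exact G.loopless.irrefl v h2

theorem pb_Gr (β : (v : Fin n) → Fin 3 ≃ {w // G.Adj v w}) : Gr (Mp (pb β)) = G := by
  ext v w
  change (v ≠ w ∧ ∃ a b, s((v, a), (w, b)) ∈ Mp (pb β)) ↔ G.Adj v w
  constructor
  · rintro ⟨_, a, b, hab⟩
    rw [mem_Mp _ (pb_inv β), pb_eq_iff] at hab
    have h2 := (β v a).2
    rwa [hab.1] at h2
  · intro h
    refine ⟨h.ne, (β v).symm ⟨w, h⟩, (β w).symm ⟨v, h.symm⟩, ?_⟩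
    rw [mem_Mp _ (pb_inv β), pb_eq_iff]
    simp

theorem FIBG : ST_FIBG := by
  intro n G hG
  have hcard : ∀ v, Nat.card {w // G.Adj v w} = 3 := by
    intro v
    have h := hG v
    rw [← Nat.card_coe_set_eq] at h
    exact h
  classical
  have hc6 : Fintype.card ((v : Fin n) → Fin 3 ≃ {w // G.Adj v w}) = 6 ^ n := by
    rw [Fintype.card_pi]
    have : ∀ v, Fintype.card (Fin 3 ≃ {w // G.Adj v w}) = 6 := by
      intro v
      have e : Fintype.card (Fin 3) = Fintype.card {w // G.Adj v w} := by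
        rw [Fintype.card_fin, ← Nat.card_eq_fintype_card, hcard v]
      rw [Fintype.card_equiv (Fintype.equivOfCardEq e)]
      rfl
    rw [Finset.prod_congr rfl (fun v _ => this v)]
    simp
  rw [← hc6, ← Finset.card_univ]
  symm
  refine Finset.card_bij (fun β _ => Mp (pb β)) ?_ ?_ ?_
  · intro β _
    rw [mem_filter]
    exact ⟨mp_pm _ (pb_inv β) (pb_ne β), pb_Gr β⟩
  · intro β _ β' _ h
    funext v
    ext a : 2
    have h1 : s((v, a), pb β (v, a)) ∈ Mp (pb β) := (mem_Mp _ (pb_inv β) _ _).2 rfl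
    have h2 : s((v, a), pb β (v, a)) ∈ Mp (pb β') := by
      have h' : Mp (pb β) = Mp (pb β') := h
      rw [← h']
      exact h1
    rw [mem_Mp _ (pb_inv β')] at h2
    exact (congrArg Prod.fst h2).symm
  · intro M hM
    rw [mem_filter] at hM
    obtain ⟨hM, hGr⟩ := hM
    unfold PM at hM
    rw [mem_filter] at hM
    obtain ⟨_, hd, _, hu⟩ := hM
    have hex : ∀ h : HE n, ∃ h', s(h, h') ∈ M := by
      intro h
      obtain ⟨e, ⟨he, hhe⟩, _⟩ := hu h (mem_univ _)
      obtain ⟨y, rfl⟩ := hhe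
      exact ⟨y, he⟩
    choose p hp using hex
    have huniq : ∀ x y : HE n, s(x, y) ∈ M → p x = y := by
      intro x y hxy
      obtain ⟨e, _, he⟩ := hu x (mem_univ _)
      have h1 := he _ ⟨hxy, Sym2.mem_mk_left _ _⟩
      have h2 := he _ ⟨hp x, Sym2.mem_mk_left _ _⟩
      have h3 : s(x, p x) = s(x, y) := h2.trans h1.symm
      exact Sym2.congr_right.1 h3
    have hA : ∀ (v : Fin n) (w : {w // G.Adj v w}), ∃ a : Fin 3, (p (v, a)).1 = w.1 := by
      intro v w
      have h1 : (Gr M).Adj v w.1 := by rw [hGr]; exact w.2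
      obtain ⟨_, a, b, hab⟩ := h1
      exact ⟨a, by rw [huniq _ _ hab]⟩
    choose A hA using hA
    have hbij : ∀ v, Function.Bijective (A v) := by
      intro v
      have hinj : Function.Injective (A v) := by
        intro w w' hww
        apply Subtype.ext
        rw [← hA v w, ← hA v w', hww]
      rw [Fintype.bijective_iff_injective_and_card]
      refine ⟨hinj, ?_⟩
      rw [Fintype.card_fin, ← Nat.card_eq_fintype_card, hcard v]
    let β : (v : Fin n) → Fin 3 ≃ {w // G.Adj v w} := fun v =>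
      (Equiv.ofBijective (A v) (hbij v)).symm
    have hβ : ∀ v a, (β v a).1 = (p (v, a)).1 := by
      intro v a
      have h1 : A v (β v a) = a := (Equiv.ofBijective (A v) (hbij v)).apply_symm_apply a
      rw [← hA v (β v a), h1]
    have hpp : pb β = p := by
      funext h
      obtain ⟨v, a⟩ := h
      have h1 : pb β (v, a) = ((p (v, a)).1, (p (v, a)).2) := by
        rw [pb_eq_iff]
        refine ⟨hβ v a, ?_⟩
        rw [hβ]
        have h2 : s(((p (v, a)).1, (p (v, a)).2), (v, a)) ∈ M := by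
          rw [Sym2.eq_swap]
          exact hp (v, a)
        rw [huniq _ _ h2]
      exact h1
    refine ⟨β, mem_univ _, ?_⟩
    change Mp (pb β) = M
    rw [hpp]
    ext e
    induction e using Sym2.ind with
    | _ x y =>
      rw [mem_Mp p (by rw [← hpp]; exact pb_inv β)]
      constructor
      · rintro rfl
        exact hp x
      · exact huniq x y

end Pool.Agent.Helper77.T4
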